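import Pool.Agent.Helper43.GD.St

/-! # Project GD, module IN (strong induction on the order of the ring) -/

set_option autoImplicit false

namespace Pool.Agent.Helper57.GD

open Pool.Agent.Helper43.GD

theorem hIN (hHAT : StHAT) (hPF : StPF) (hAU : StAU) (hSE : StSE) (hB5 : StB5) (hCEL : StCEL) :
    StIN := by
  intro M
  suffices key : ∀ n : ℕ, ∀ (L : Type) [CommRing L] (x : Lˣ), Rg L M x → Nat.card L = n →
      FinP L x by
    intro L _ x hR
    exact key _ L x hR rfl
  intro n
  induction n using Nat.strong_induction_on with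
  | _ n ih =>
  intro L _ x hR hn A _ s' h1 hx
  rcases subsingleton_or_nontrivial L with hL | hL
  · have hE : ∀ a, s'.E a = 1 := fun a => by rw [Subsingleton.elim a 0, s'.E_zero]
    have hF : ∀ a, s'.F a = 1 := fun a => by rw [Subsingleton.elim a 0, s'.F_zero]
    have hbot : s'.gp = ⊥ := by
      rw [Sys.gp, Subgroup.closure_eq_bot_iff]
      rintro y (⟨a, rfl⟩ | ⟨a, rfl⟩)
      · simp [hE]
      · simp [hF]
    rw [hbot]
    infer_instance
  · obtain ⟨H, _, s, hs⟩ := hHAT L x
    have hP := hPF L H M x s hR hs.1 hs.2.1 hs.2.2.1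
    obtain ⟨Q, hxU, hQE, hQF⟩ := hAU L H M x s hR hs
    have hfin : Finite Q.gp := by
      by_cases hι : ∃ ι ∈ Q.U, (ι : L) ^ 2 = 1 ∧ ι ≠ 1 ∧ ι ≠ -1
      · obtain ⟨ι, g1, g2, g3, g4⟩ := hι
        exact hSE L _ Q M x hR hxU
          (fun L' _ x' hR' hc => ih _ (by omega) L' x' hR' rfl) ι g1 g2 g3 g4
      · have hCB : CB Q M x := ⟨hR, hxU, hL, fun ι g1 g2 => by
          by_contra hcon
          rw [not_or] at hcon
          exact hι ⟨ι, g1, g2, hcon.1, hcon.2⟩⟩
        obtain ⟨hloc, hall⟩ := hB5 L _ Q M x hCB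
        exact hCEL L _ Q hR.fin hloc hR.two hall
    have hmem : ∀ g : H, MulAut.conj g ∈ Q.gp := by
      have hle : s.gp ≤ Q.gp.comap MulAut.conj := by
        rw [Sys.gp, Subgroup.closure_le]
        rintro y (⟨a, rfl⟩ | ⟨a, rfl⟩)
        · change MulAut.conj (s.E a) ∈ Q.gp
          rw [← hQE]
          exact Q.E_mem a
        · change MulAut.conj (s.F a) ∈ Q.gp
          rw [← hQF]
          exact Q.F_mem a
      intro g
      have : g ∈ s.gp := by rw [hs.2.2.1]; trivial
      exact hle this
    have hfc : Finite (H ⧸ Subgroup.center H) := by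
      apply Finite.of_injective
        (fun q : H ⧸ Subgroup.center H => (⟨MulAut.conj q.out, hmem _⟩ : Q.gp))
      intro p q hpq
      have h2 : MulAut.conj p.out = MulAut.conj q.out := congrArg Subtype.val hpq
      have h3 : ((p.out : H) : H ⧸ Subgroup.center H) = ((q.out : H) : H ⧸ Subgroup.center H) := by
        rw [QuotientGroup.eq, Subgroup.mem_center_iff]
        intro g
        have h4 : p.out * g * (p.out)⁻¹ = q.out * g * (q.out)⁻¹ := by
          have := congrArg (fun f : MulAut H => f g) h2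
          simpa [MulAut.conj_apply] using this
        have h5 : g * (p.out⁻¹ * q.out) = p.out⁻¹ * (p.out * g * (p.out)⁻¹) * q.out := by group
        rw [h5, h4]
        group
      simpa using h3
    have hH : Finite H := Pool.Agent.Helper60.DZ2.Red_schur hP
    obtain ⟨φ, hφE, hφF⟩ := hs.2.2.2 A s' h1 hx
    have hle : s'.gp ≤ φ.range := by
      rw [Sys.gp, Subgroup.closure_le]
      rintro y (⟨a, rfl⟩ | ⟨a, rfl⟩)
      · exact ⟨s.E a, hφE a⟩
      · exact ⟨s.F a, hφF a⟩
    have hr : (φ.range : Set A).Finite := by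
      rw [MonoidHom.coe_range]
      exact Set.finite_range φ
    exact (hr.subset hle).to_subtype

end Pool.Agent.Helper57.GD
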